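import Pool.Agent.D0H67.TS.Stm
import Pool.Agent.D0H9.CX.Powr

set_option autoImplicit false

/-! # Module POWT of project TS (helper67): `T ↦ T ^ m` for the tail series -/

namespace Pool.Agent.D0H41.TS

open Pool.Agent.TH192.DT Pool.Agent.D0H67.CX Pool.Agent.D0H67.TS
open Pool.Agent.D0H9.CX (expandS_eq t_POWR)

theorem geo_one {R : Type} [CommRing R] :
    (1 - PowerSeries.X) * (PowerSeries.mk fun _ => (1 : R)) = 1 := by
  rw [mul_comm]
  exact PowerSeries.mk_one_mul_one_sub_eq_one R

theorem tl_expand {R : Type} [CommRing R] (m : ℕ) (hm : m ≠ 0) (F : PowerSeries R) :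
    tl 1 (PowerSeries.expand m hm F) = PowerSeries.expand m hm (tl 1 F) *
      (∑ i ∈ Finset.range m, PowerSeries.X ^ i) -
      ((∑ i ∈ Finset.range m, PowerSeries.X ^ i) - 1) * PowerSeries.expand m hm F := by
  unfold tl
  rw [map_mul, map_sub, map_mul, PowerSeries.expand_C, PowerSeries.expand_X, map_one]
  have hQ := geo_one (R := R)
  set Q : PowerSeries R := PowerSeries.mk fun _ => 1
  set G : PowerSeries R := ∑ i ∈ Finset.range m, PowerSeries.X ^ i with hGd
  have h1 : G * (1 - PowerSeries.X) = 1 - PowerSeries.X ^ m := by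
    rw [hGd]
    have := geom_sum_mul (PowerSeries.X : PowerSeries R) m
    linear_combination -this
  have hEQ : (1 - PowerSeries.X ^ m) * PowerSeries.expand m hm Q = 1 := by
    have := congrArg (PowerSeries.expand m hm) hQ
    rwa [map_mul, map_sub, map_one, PowerSeries.expand_X] at this
  have hG : G = (1 - PowerSeries.X ^ m) * Q := by
    linear_combination Q * h1 - G * hQ
  have hGE : G * PowerSeries.expand m hm Q = Q := by
    linear_combination (PowerSeries.expand m hm Q) * hG + Q * hEQ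
  linear_combination (-(1 - PowerSeries.X ^ m * PowerSeries.expand m hm F)) * hGE +
    PowerSeries.expand m hm F * hG + PowerSeries.expand m hm F * hQ

theorem t_POWT : S_DROP → S_POWT := by
  intro hD R _ u D hD0 m hm F hF
  have hm0 : m ≠ 0 := by omega
  have h1 := t_POWR u D hD0 m hm _ hF
  have h2 := t_POWR u D hD0 m hm _ (hD u D hD0 1 F hF)
  rw [expandS_eq m hm0] at h1 h2 ⊢
  rw [tl_expand m hm0]
  have hX : (PowerSeries.X : PowerSeries R) ∈
      ratU u {q : ℤ × ℤ | ∃ p ∈ D, q = (p.1, (m : ℤ) * p.2)} :=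
    Algebra.subset_adjoin (Or.inl rfl)
  have hG : (∑ i ∈ Finset.range m, (PowerSeries.X : PowerSeries R) ^ i) ∈
      ratU u {q : ℤ × ℤ | ∃ p ∈ D, q = (p.1, (m : ℤ) * p.2)} :=
    Subalgebra.sum_mem _ fun i _ => Subalgebra.pow_mem _ hX i
  exact Subalgebra.sub_mem _ (Subalgebra.mul_mem _ h1 hG)
    (Subalgebra.mul_mem _ (Subalgebra.sub_mem _ hG (Subalgebra.one_mem _)) h2)

end Pool.Agent.D0H41.TS
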